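import Pool.Agent.H540R3.DS6

set_option autoImplicit false

/-!
# The derived subgroup of a diagram group need not be a diagram group

The example is the diagram group of
`⟨x, y, p₀, p₁, p₂, p₃ | x = x p₀, y = p₀ y, pᵢ = pⱼ (i < j)⟩` with base word `xy`, which is the
restricted wreath product `F₃ ≀ ℤ`.
-/

namespace Pool.Agent.Results.MP_8a4945_al.NotDiagram

open H540DG

open scoped commutatorElement

/-- A diagram group is a group isomorphic to the fundamental group `D(P, w)` of the Squier complex
of a semigroup presentation `P` at a nonempty word `w`. -/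
def IsDiagramGroup (G : Type) [Group G] : Prop :=
  ∃ (A : Type) (P : Pres A) (w : List A), w ≠ [] ∧ Nonempty (G ≃* DiagramGroup P w)

/-- The diagram group of the example. -/
abbrev G8 : Type := DiagramGroup P8 (Wd [])

/-- Its derived subgroup. -/
abbrev H8 : Type := commutator G8

/-- into the universal group -/
noncomputable def io0 : G8 →* U P8 := (Dg P8 (Wd [])).subtype.comp (dgEquiv P8 (Wd [])).toMonoidHom

theorem io0_inj : Function.Injective io0 := by
  intro a b h
  have h1 : (dgEquiv P8 (Wd [])) a = (dgEquiv P8 (Wd [])) b := Subtype.ext h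
  exact (dgEquiv P8 (Wd [])).injective h1

theorem io0_surj {g : U P8} (h : Pi (Wd []) g (Wd [])) : ∃ a, io0 a = g := by
  obtain ⟨a, ha⟩ := (dgEquiv P8 (Wd [])).surjective ⟨g, h⟩
  exact ⟨a, congrArg Subtype.val ha⟩

theorem io0_pi (a : G8) : Pi (Wd []) (io0 a) (Wd []) := ((dgEquiv P8 (Wd [])) a).2

/-- into the universal group -/
noncomputable def io : H8 →* U P8 := io0.comp (commutator G8).subtype

theorem io_inj : Function.Injective io := by
  intro a b h
  exact Subtype.ext (io0_inj h)

theorem io_comm {y z : U P8} (hy : Pi (Wd []) y (Wd [])) (hz : Pi (Wd []) z (Wd [])) :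
    ∃ d : H8, io d = y * z * y⁻¹ * z⁻¹ := by
  obtain ⟨a, rfl⟩ := io0_surj hy
  obtain ⟨b, rfl⟩ := io0_surj hz
  refine ⟨⟨⁅a, b⁆, Subgroup.commutator_mem_commutator (Subgroup.mem_top a) (Subgroup.mem_top b)⟩, ?_⟩
  change io0 ⁅a, b⁆ = _
  rw [commutatorElement_def]
  simp

theorem io_kill (f : U P8 →* Multiplicative ℤ) (d : H8) : f (io d) = 1 := by
  have h := Abelianization.commutator_subset_ker (f.comp io0) d.2
  exact h

/-- exponent of the first free generator -/
def abh : B8 →* Multiplicative ℤ :=
  FreeGroup.lift (fun e => if e.1 = (1, 2) then Multiplicative.ofAdd 1 else 1)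

/-- homomorphisms to the integers depending only on the relation -/
def relHom (f : P8.rels → Multiplicative ℤ) : U P8 →* Multiplicative ℤ :=
  liftU (fun e => f e.r) (by intro a b c r s; simp only; rw [mul_comm])

theorem relHom_gen (f : P8.rels → Multiplicative ℤ) (e : Edge P8) :
    relHom f (gen e) = f e.r := liftU_gen _ _ _

theorem relHom_wh (f : P8.rels → Multiplicative ℤ) (a c : List Lt) (g : U P8) :
    relHom f (wh a c g) = relHom f g := by
  have : (relHom f).comp (wh a c) = relHom f := by
    apply PresentedGroup.ext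
    intro e
    change relHom f (wh a c (gen e)) = relHom f (gen e)
    rw [wh_gen, relHom_gen, relHom_gen]; rfl
  exact DFunLike.congr_fun this g

theorem relHom_conj (f : P8.rels → Multiplicative ℤ) (g h : U P8) :
    relHom f (g * h * g⁻¹) = relHom f h := by
  rw [map_mul, map_mul, map_inv, mul_comm (relHom f g), mul_inv_cancel_right]

theorem relHom_Ak (f : P8.rels → Multiplicative ℤ) (k : ℤ) (β : B8) :
    relHom f (Ak k β) = relHom f (lam β) := by
  unfold Ak
  rw [relHom_conj, A0_eq, relHom_conj, relHom_wh]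

/-- the total exponent -/
def sU : U P8 →* Multiplicative ℤ := relHom (fun r => abh (labR r))

theorem sU_Ak (k : ℤ) (β : B8) : sU (Ak k β) = abh β := by
  unfold sU
  rw [relHom_Ak]
  have h1 : ∀ i j h, relHom (fun r => abh (labR r)) (eps i j h) = abh (lab i j) := by
    intro i j h
    unfold eps
    rw [relHom_gen, labR_P]
  have h2 : ∀ i, relHom (fun r => abh (labR r)) (sg i) = 1 := by
    intro i
    unfold sg
    by_cases h : 0 < i
    · rw [dif_pos h, h1, lab_zero, map_one]
    · rw [dif_neg h, map_one]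
  have : (relHom (fun r => abh (labR r))).comp lam = abh := by
    apply FreeGroup.ext_hom
    intro e
    rw [MonoidHom.comp_apply]
    unfold lam
    rw [FreeGroup.lift_apply_of, map_mul, map_mul, map_inv, h1, h2, h2, lab_of]
    simp
  exact DFunLike.congr_fun this β

/-- the shift exponent -/
def tU : U P8 →* Multiplicative ℤ :=
  relHom (fun r => if r.1.1 = [Lt.x] then Multiplicative.ofAdd 1 else 1)

theorem tU_Ak (k : ℤ) (β : B8) : tU (Ak k β) = 1 := by
  unfold tU
  rw [relHom_Ak]
  have h1 : ∀ i j h, relHom (fun r => if r.1.1 = [Lt.x] then Multiplicative.ofAdd 1 else 1)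
      (eps i j h) = 1 := by
    intro i j h
    unfold eps
    rw [relHom_gen, if_neg]
    intro h'
    have : ([Lt.p i] : List Lt) = [Lt.x] := h'
    simp at this
  have h2 : ∀ i, relHom (fun r => if r.1.1 = [Lt.x] then Multiplicative.ofAdd 1 else 1)
      (sg i) = 1 := by
    intro i
    unfold sg
    by_cases h : 0 < i
    · rw [dif_pos h, h1]
    · rw [dif_neg h, map_one]
  have : (relHom (fun r => if r.1.1 = [Lt.x] then Multiplicative.ofAdd 1 else 1)).comp lam = 1 := by
    apply FreeGroup.ext_hom
    intro e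
    rw [MonoidHom.comp_apply, MonoidHom.one_apply]
    unfold lam
    rw [FreeGroup.lift_apply_of, map_mul, map_mul, map_inv, h1, h2, h2]
    simp
  exact DFunLike.congr_fun this β

theorem tU_TT : tU TT = Multiplicative.ofAdd 1 := by
  unfold tU TT
  rw [map_mul, map_inv, relHom_wh, relHom_wh]
  unfold gX gY
  rw [relHom_gen, relHom_gen]
  have h1 : ¬ (rY.1.1 = [Lt.x]) := by
    intro h'
    have : ([Lt.y] : List Lt) = [Lt.x] := h'
    simp at this
  change (if rX.1.1 = [Lt.x] then Multiplicative.ofAdd (1 : ℤ) else 1) *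
    (if rY.1.1 = [Lt.x] then Multiplicative.ofAdd (1 : ℤ) else 1)⁻¹ = Multiplicative.ofAdd 1
  rw [if_pos (show rX.1.1 = [Lt.x] from rfl), if_neg h1]
  simp

theorem tU_pA (l : List (ℤ × B8)) : tU (pA l) = 1 := by
  induction l with
  | nil => simp [pA]
  | cons z l ih => rw [pA_cons, map_mul, tU_Ak, ih, mul_one]

/-- elements of the derived subgroup are products of coordinates -/
theorem io_pA (d : H8) : ∃ l, io d = pA l := by
  obtain ⟨n, l, h⟩ := NN_form (Dg_NN (io0_pi (d : G8)))
  have h1 : io d = TT ^ n * pA l := h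
  have h2 := io_kill tU d
  rw [h1, map_mul, map_zpow, tU_TT, tU_pA, mul_one] at h2
  have h3 : n = 0 := by
    have := congrArg Multiplicative.toAdd h2
    simpa using this
  exact ⟨l, by rw [h1, h3]; simp⟩

theorem io_th (d : H8) : th (io d) = 1 := by
  obtain ⟨l, hl⟩ := io_pA d
  rw [hl, pA_th]

/-- coordinates of the derived subgroup -/
noncomputable def pr (k : ℤ) : H8 →* B8 where
  toFun d := Fv (io d) (pt k)
  map_one' := by rw [map_one, Fv_one]
  map_mul' a b := by rw [map_mul, Fv_mul, io_th, RelIso.one_apply]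

theorem pr_apply (k : ℤ) (d : H8) : pr k d = Fv (io d) (pt k) := rfl

theorem pi_TT : Pi (P := P8) (Wd []) TT (Wd []) := by
  have h1 := pi_gX.wh [] [Lt.y]
  have h2 := pi_gY.wh [Lt.x] []
  simp only [List.nil_append, List.append_nil] at h1 h2
  exact h1.trans h2.symm

theorem pi_Ak (k : ℤ) (β : B8) : Pi (P := P8) (Wd []) (Ak k β) (Wd []) := by
  have h1 : TT ∈ Dg P8 (Wd []) := pi_TT
  have h2 : A0 β ∈ Dg P8 (Wd []) := by
    unfold A0 Au
    have h3 := (pi_chi β).wh [] (tail [])
    simp only [List.nil_append] at h3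
    have h4 : eu [] * wh [] (tail []) (chi β) * (eu [])⁻¹ = wh [] (tail []) (chi β) := by
      simp [eu]
    rw [h4]
    exact h3
  exact (Dg P8 (Wd [])).mul_mem ((Dg P8 (Wd [])).mul_mem ((Dg P8 (Wd [])).zpow_mem h1 k) h2)
    ((Dg P8 (Wd [])).inv_mem ((Dg P8 (Wd [])).zpow_mem h1 k))

/-- generators of the free group -/
def g1 : B8 := FreeGroup.of ⟨(1, 2), by decide⟩
/-- generators of the free group -/
def g2 : B8 := FreeGroup.of ⟨(1, 3), by decide⟩
/-- generators of the free group -/
def g3 : B8 := FreeGroup.of ⟨(2, 3), by decide⟩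

/-- test commutators -/
def ss (t : Bool) : B8 := if t then g1 * g2 * g1⁻¹ * g2⁻¹ else g1 * g3 * g1⁻¹ * g3⁻¹

theorem ss_ne : ss false * ss true ≠ ss true * ss false := by
  intro h
  let f : B8 →* Equiv.Perm (Fin 4) := FreeGroup.lift (fun e =>
    if e.1 = (1, 2) then Equiv.swap 0 1 else if e.1 = (1, 3) then Equiv.swap 0 2 else
      Equiv.swap 0 3)
  have h1 := congrArg f h
  simp only [ss, g1, g2, g3, if_true, Bool.false_eq_true, if_false, map_mul, map_inv, f,
    FreeGroup.lift_apply_of] at h1
  revert h1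
  decide

theorem ss_comm (t : Bool) : ∃ a b : B8, ss t = a * b * a⁻¹ * b⁻¹ := by
  cases t
  · exact ⟨g1, g3, rfl⟩
  · exact ⟨g1, g2, rfl⟩

theorem exists_nu (t : Bool) (k : ℤ) : ∃ d : H8, io d = Ak k (ss t) := by
  obtain ⟨a, b, h⟩ := ss_comm t
  obtain ⟨d, hd⟩ := io_comm (pi_Ak k a) (pi_Ak k b)
  refine ⟨d, ?_⟩
  rw [hd, h, Ak_mul, Ak_mul, Ak_mul, Ak_inv, Ak_inv]

/-- test elements -/
noncomputable def nu (t : Bool) (k : ℤ) : H8 := Classical.choose (exists_nu t k)

theorem nu_spec (t : Bool) (k : ℤ) : io (nu t k) = Ak k (ss t) := Classical.choose_spec (exists_nu t k)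

theorem sU_pA3 {l m r : ℤ} (hlm : l ≠ m) (hmr : m ≠ r) (hlr : l ≠ r) (L : List (ℤ × B8))
    (h : ∀ j, j ≠ l → j ≠ m → j ≠ r → coord L j = 1) :
    sU (pA L) = abh (coord L l) * abh (coord L m) * abh (coord L r) := by
  rw [pA_split L l, pA_split (L.filter (fun z => !decide (z.1 = l))) m,
    pA_split ((L.filter (fun z => !decide (z.1 = l))).filter (fun z => !decide (z.1 = m))) r]
  have h1 : pA (((L.filter (fun z => !decide (z.1 = l))).filter
      (fun z => !decide (z.1 = m))).filter (fun z => !decide (z.1 = r))) = 1 := by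
    apply pA_trivial _ _ le_rfl
    intro k
    rw [coord_filter, coord_filter, coord_filter]
    by_cases h1 : k = r
    · rw [if_pos h1]
    · rw [if_neg h1]
      by_cases h2 : k = m
      · rw [if_pos h2]
      · rw [if_neg h2]
        by_cases h3 : k = l
        · rw [if_pos h3]
        · rw [if_neg h3]; exact h k h3 h2 h1
  rw [h1, mul_one, map_mul, map_mul, sU_Ak, sU_Ak, sU_Ak, coord_filter, coord_filter, coord_filter,
    if_neg hlm.symm, if_neg hmr.symm, if_neg hlr.symm, mul_assoc]

/-- the derived subgroup is a linked group -/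
noncomputable def linked : Linked H8 ℤ X8 where
  π := pr
  inj := by
    intro d h
    obtain ⟨l, hl⟩ := io_pA d
    apply io_inj
    rw [map_one, hl]
    apply pA_trivial _ _ le_rfl
    intro k
    have := h k
    rwa [pr_apply, hl, pA_pt] at this
  s := ss
  ne := ss_ne
  ν := nu
  νs := by intro t i; rw [pr_apply, nu_spec, Ak_pt, if_pos rfl]
  νn := by intro t i j h; rw [pr_apply, nu_spec, Ak_pt, if_neg h]
  ab := abh
  abs := by
    intro t
    obtain ⟨a, b, h⟩ := ss_comm t
    rw [h, map_mul, map_mul, map_mul, map_inv, map_inv, mul_comm (abh a), mul_inv_cancel_right,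
      mul_inv_cancel]
  x := g1
  abx := by
    unfold abh g1
    rw [FreeGroup.lift_apply_of]
    decide
  link := by
    intro l r hlr
    have h1 : Pi (P := P8) (Wd []) (TT ^ (l - r)) (Wd []) :=
      (Dg P8 (Wd [])).zpow_mem (show TT ∈ Dg P8 (Wd []) from pi_TT) (l - r)
    obtain ⟨d, hd⟩ := io_comm h1 (pi_Ak r g1)
    have h2 : io d = pA [(l, g1), (r, g1⁻¹)] := by
      rw [hd, Ak_shift, pA_cons, pA_cons, pA_nil, mul_one, Ak_inv]
      have : r + (l - r) = l := by ring
      rw [this]
    refine ⟨d, ?_, ?_, ?_⟩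
    · rw [pr_apply, h2, pA_pt]
      simp [coord, Ne.symm hlr]
    · rw [pr_apply, h2, pA_pt]
      simp [coord, hlr]
    · intro j h3 h4
      rw [pr_apply, h2, pA_pt]
      simp [coord, Ne.symm h3, Ne.symm h4]
  sum := by
    intro l m r hlm hmr hlr d h
    obtain ⟨L, hL⟩ := io_pA d
    have h1 := io_kill sU d
    rw [hL, sU_pA3 hlm hmr hlr L (by
      intro j h2 h3 h4
      have := h j h2 h3 h4
      rwa [pr_apply, hL, pA_pt] at this)] at h1
    rw [pr_apply, pr_apply, pr_apply, hL, pA_pt, pA_pt, pA_pt]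
    exact h1

/-- **Main result.** There is a diagram group, given by a finite semigroup presentation, whose
derived subgroup is not a diagram group. -/
theorem result : ∃ (A : Type) (_ : Finite A) (P : Pres A) (_ : P.rels.Finite) (w : List A),
    w ≠ [] ∧ ¬ IsDiagramGroup (commutator (DiagramGroup P w)) := by
  refine ⟨Lt, ?_, P8, ?_, Wd [], by simp [Wd], ?_⟩
  · have : Function.Surjective (fun z : Option (Option (Fin 4)) => match z with
      | none => Lt.x
      | some none => Lt.y
      | some (some i) => Lt.p i) := by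
      intro b
      cases b with
      | x => exact ⟨none, rfl⟩
      | y => exact ⟨some none, rfl⟩
      | p i => exact ⟨some (some i), rfl⟩
    exact Finite.of_surjective _ this
  · have : P8.rels ⊆ ({([Lt.x], [Lt.x, Lt.p 0]), ([Lt.y], [Lt.p 0, Lt.y])} : Set (List Lt × List Lt)) ∪
        Set.range (fun z : Fin 4 × Fin 4 => (([Lt.p z.1], [Lt.p z.2]) : List Lt × List Lt)) := by
      rintro r (rfl | rfl | ⟨i, j, -, rfl⟩)
      · left; simp
      · left; simp
      · right; exact ⟨(i, j), rfl⟩
    exact ((Set.toFinite _).union (Set.finite_range _)).subset this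
  · rintro ⟨A, Q, v, -, ⟨φ⟩⟩
    have ψ : H8 ≃* Dg Q v := φ.trans (dgEquiv Q v)
    refine not_dg linked (i0 := 0) (i1 := 1) (i2 := 2) (by decide) (by decide) (by decide)
      ((Dg Q v).subtype.comp ψ.toMonoidHom) ?_ ?_ (v := v)
    · intro a b h
      exact ψ.injective (Subtype.ext h)
    · intro y
      constructor
      · intro hy
        obtain ⟨d, hd⟩ := ψ.surjective ⟨y, hy⟩
        exact ⟨d, congrArg Subtype.val hd⟩
      · rintro ⟨d, rfl⟩
        exact (ψ d).2

end Pool.Agent.Results.MP_8a4945_al.NotDiagram
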